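import Mathlib

/-!
# A large binomial antichain modulo 2 (helper691)

The even numbers whose binary digits, read from the place `2` upwards, form a word which has more ones than
zeros for the first time at its end.
-/

set_option autoImplicit false

namespace Pool.Agent.U691.DM

open Finset Polynomial

/-- the number with the binary digits `1` at the places `j + 1`, `j ∈ S` -/
def num (S : Finset ℕ) : ℕ := ∑ j ∈ S, 2 ^ (j + 1)

lemma num_eq (S : Finset ℕ) : num S = 2 * ∑ j ∈ S, 2 ^ j := by
  unfold num
  rw [Finset.mul_sum]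
  exact sum_congr rfl fun j _ => by rw [pow_succ]; ring

lemma num_injective : Function.Injective num := by
  intro S T h
  rw [num_eq, num_eq] at h
  exact Finset.geomSum_injective le_rfl (by simpa using h)

lemma num_lt (S : Finset ℕ) (n : ℕ) (h : S ⊆ range n) : num S < 2 ^ (n + 1) := by
  have h1 : ∑ j ∈ S, 2 ^ j ≤ ∑ j ∈ range n, 2 ^ j := sum_le_sum_of_subset h
  have h2 : ∑ j ∈ range n, 2 ^ j < 2 ^ n := by
    have := Nat.geomSum_lt (m := 2) (n := n) (s := range n) le_rfl (fun k hk => mem_range.mp hk)
    exact this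
  rw [num_eq, pow_succ]
  omega

/-- the binomial coefficients modulo two -/
lemma choose_num (S T : Finset ℕ) : ((num S).choose (num T) : ZMod 2) = if T ⊆ S then 1 else 0 := by
  classical
  have h1 : (1 + X : (ZMod 2)[X]) ^ num S = ∑ U ∈ S.powerset, X ^ num U := by
    unfold num
    rw [← Finset.prod_pow_eq_pow_sum]
    have h2 : ∀ j ∈ S, (1 + X : (ZMod 2)[X]) ^ (2 ^ (j + 1)) = 1 + X ^ (2 ^ (j + 1)) := by
      intro j _
      rw [add_pow_char_pow, one_pow]
    rw [prod_congr rfl h2, Finset.prod_one_add]
    exact sum_congr rfl fun U _ => by rw [Finset.prod_pow_eq_pow_sum]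
  have h3 : ((1 + X : (ZMod 2)[X]) ^ num S).coeff (num T) = ((num S).choose (num T) : ZMod 2) :=
    Polynomial.coeff_one_add_X_pow _ _ _
  rw [← h3, h1, Polynomial.finsetSum_coeff]
  by_cases h : T ⊆ S
  · rw [if_pos h, sum_eq_single T]
    · rw [coeff_X_pow, if_pos rfl]
    · intro U _ hU
      rw [coeff_X_pow, if_neg]
      intro h4
      exact hU (num_injective h4).symm
    · intro h4
      exact absurd (mem_powerset.mpr h) h4
  · rw [if_neg h]
    refine sum_eq_zero fun U hU => ?_
    rw [coeff_X_pow, if_neg]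
    intro h4
    rw [num_injective h4] at h
    exact h (mem_powerset.mp hU)

lemma two_dvd_choose (S T : Finset ℕ) (h : ¬ T ⊆ S) : 2 ∣ (num S).choose (num T) := by
  have h1 := choose_num S T
  rw [if_neg h] at h1
  exact (ZMod.natCast_eq_zero_iff _ _).mp h1

/-- the first passage sets: one more than half of the places are in `S` for the first time at the last place -/
def Fam (k : ℕ) (S : Finset ℕ) : Prop :=
  S.card = k + 1 ∧ 2 * k ∈ S ∧ S ⊆ range (2 * k + 1) ∧ ∀ j ≤ 2 * k, 2 * (S.filter (· < j)).card ≤ j

lemma fam_anti {k k' : ℕ} {S T : Finset ℕ} (hS : Fam k S) (hT : Fam k' T) (h : S ⊆ T) : S = T := by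
  obtain ⟨s1, s2, s3, s4⟩ := hS
  obtain ⟨t1, t2, t3, t4⟩ := hT
  have hk : k ≤ k' := by
    have := mem_range.mp (t3 (h s2))
    omega
  rcases hk.eq_or_lt with rfl | hlt
  · exact eq_of_subset_of_card_le h (by omega)
  · exfalso
    have h1 := t4 (2 * k + 1) (by omega)
    have h2 : S.card ≤ (T.filter (· < 2 * k + 1)).card := by
      refine card_le_card fun x hx => ?_
      rw [mem_filter]
      exact ⟨h hx, mem_range.mp (s3 hx)⟩
    omega

open DyckStep

/-- the places of the steps `D` -/
def dset (l : List DyckStep) : Finset ℕ := (range l.length).filter fun i => l[i]? = some D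

lemma dset_card (l : List DyckStep) : ∀ j ≤ l.length, ((dset l).filter (· < j)).card = (l.take j).count D
  | 0, _ => by simp
  | j + 1, hj => by
      have ih := dset_card l j (by omega)
      have h1 : (dset l).filter (· < j + 1) = (if l[j]? = some D then {j} else ∅) ∪ (dset l).filter (· < j) := by
        ext x
        simp only [dset, mem_filter, mem_range, mem_union]
        constructor
        · rintro ⟨⟨h2, h3⟩, h4⟩
          by_cases h5 : x = j
          · left
            subst h5
            rw [if_pos h3]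
            simp
          · right
            exact ⟨⟨h2, h3⟩, by omega⟩
        · rintro (h2 | ⟨⟨h2, h3⟩, h4⟩)
          · split_ifs at h2 with h5
            · rw [mem_singleton] at h2
              subst h2
              exact ⟨⟨by omega, h5⟩, by omega⟩
            · simp at h2
          · exact ⟨⟨h2, h3⟩, by omega⟩
      have h6 : Disjoint (if l[j]? = some D then ({j} : Finset ℕ) else ∅) ((dset l).filter (· < j)) := by
        rw [disjoint_left]
        intro x hx hx2
        split_ifs at hx with h5
        · rw [mem_singleton] at hx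
          rw [mem_filter] at hx2
          omega
        · simp at hx
      rw [h1, card_union_of_disjoint h6, ih, List.take_add_one, List.count_append, add_comm]
      congr 1
      have hj' : j < l.length := by omega
      rw [List.getElem?_eq_getElem hj']
      by_cases h7 : l[j] = D
      · simp [h7]
      · simp [h7]

/-- the set of a Dyck word -/
def wset (p : DyckWord) : Finset ℕ := insert (2 * p.semilength) (dset p.toList)

lemma dset_sub (l : List DyckStep) : dset l ⊆ range l.length := filter_subset _ _

lemma wset_fam (p : DyckWord) : Fam p.semilength (wset p) := by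
  have hlen := p.two_mul_semilength_eq_length
  have hnot : 2 * p.semilength ∉ dset p.toList := by
    intro h
    have := mem_range.mp (dset_sub _ h)
    omega
  have hcard : (dset p.toList).card = p.semilength := by
    have h1 := dset_card p.toList p.toList.length le_rfl
    rw [List.take_length, ← DyckWord.semilength_eq_count_D] at h1
    rw [← h1]
    congr 1
    refine (filter_true_of_mem fun x hx => ?_).symm
    exact mem_range.mp (dset_sub _ hx)
  refine ⟨?_, mem_insert_self _ _, ?_, ?_⟩
  · unfold wset
    rw [card_insert_of_notMem hnot, hcard]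
  · unfold wset
    rw [insert_subset_iff]
    refine ⟨by simp, (dset_sub _).trans ?_⟩
    rw [hlen]
    exact range_mono (by omega)
  · intro j hj
    have h1 : (wset p).filter (· < j) = (dset p.toList).filter (· < j) := by
      unfold wset
      rw [filter_insert, if_neg (by omega)]
    rw [h1, dset_card _ _ (by omega)]
    have h2 := p.count_D_le_count_U j
    have h3 : (p.toList.take j).count U + (p.toList.take j).count D = j := by
      have h4 : (p.toList.take j).length = j := by
        rw [List.length_take]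
        omega
      have h5 : ∀ l : List DyckStep, l.count U + l.count D = l.length := by
        intro l
        induction l with
        | nil => rfl
        | cons a l ih =>
          rcases a.dichotomy with rfl | rfl
          · simp
            omega
          · simp
            omega
      rw [h5, h4]
    omega

lemma dset_inj (l l' : List DyckStep) (hl : l.length = l'.length) (h : dset l = dset l') : l = l' := by
  apply List.ext_getElem hl
  intro i h1 h2
  have h3 : i ∈ dset l ↔ i ∈ dset l' := by rw [h]
  simp only [dset, mem_filter, mem_range, List.getElem?_eq_getElem h1, List.getElem?_eq_getElem h2,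
    Option.some.injEq] at h3
  rcases (l[i]).dichotomy with h4 | h4 <;> rcases (l'[i]).dichotomy with h5 | h5 <;>
    simp_all

lemma wset_inj (p q : DyckWord) (hpq : p.semilength = q.semilength) (h : wset p = wset q) : p = q := by
  have hlen := p.two_mul_semilength_eq_length
  have hlen' := q.two_mul_semilength_eq_length
  apply DyckWord.ext
  apply dset_inj
  · omega
  · have h1 : (wset p).erase (2 * p.semilength) = (wset q).erase (2 * q.semilength) := by rw [h, hpq]
    unfold wset at h1
    rw [erase_insert, erase_insert] at h1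
    · exact h1
    · intro h2
      have := mem_range.mp (dset_sub _ h2)
      omega
    · intro h2
      have := mem_range.mp (dset_sub _ h2)
      omega

/-- the weights -/
def Wt : Set ℕ := {w | ∃ p : DyckWord, w = num (wset p) + 1}

lemma wt_odd {w : ℕ} (hw : w ∈ Wt) : Odd w ∧ 3 ≤ w := by
  obtain ⟨p, rfl⟩ := hw
  have h1 := num_eq (wset p)
  have h2 : 0 < ∑ j ∈ wset p, 2 ^ j := by
    apply sum_pos (fun _ _ => by positivity)
    exact ⟨_, mem_insert_self _ _⟩
  refine ⟨?_, by omega⟩
  rw [h1]
  exact odd_two_mul_add_one _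

lemma wt_dvd {w w' : ℕ} (hw : w ∈ Wt) (hw' : w' ∈ Wt) (h : w ≠ w') : 2 ∣ (w - 1).choose (w' - 1) := by
  obtain ⟨p, rfl⟩ := hw
  obtain ⟨q, rfl⟩ := hw'
  simp only [Nat.add_sub_cancel]
  apply two_dvd_choose
  intro h1
  exact h (by rw [fam_anti (wset_fam q) (wset_fam p) h1])

lemma wt_count (k x : ℕ) (hx : 4 ^ (k + 1) ≤ x) : catalan k ≤ (Wt ∩ Set.Iic x).ncard := by
  classical
  rw [← DyckWord.card_dyckWord_semilength_eq_catalan, ← Nat.card_eq_fintype_card]
  have hfin : (Wt ∩ Set.Iic x).Finite := (Set.finite_Iic x).subset Set.inter_subset_right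
  rw [← Nat.card_coe_set_eq]
  have : Finite (Wt ∩ Set.Iic x : Set ℕ) := hfin
  refine Nat.card_le_card_of_injective
    (fun p : {p : DyckWord // p.semilength = k} => (⟨num (wset p.1) + 1, ⟨p.1, rfl⟩, ?_⟩ :
      (Wt ∩ Set.Iic x : Set ℕ))) ?_
  · have h1 := num_lt (wset p.1) (2 * k + 1) (by
      have := (wset_fam p.1).2.2.1
      rw [p.2] at this
      exact this)
    have h2 : (2 : ℕ) ^ (2 * k + 1 + 1) = 4 ^ (k + 1) := by
      rw [show 2 * k + 1 + 1 = 2 * (k + 1) by ring, pow_mul]
      norm_num
    rw [Set.mem_Iic]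
    omega
  · intro p q hpq
    have h1 := congrArg Subtype.val hpq
    have h2 : num (wset p.1) = num (wset q.1) := by
      simpa using h1
    exact Subtype.ext (wset_inj p.1 q.1 (p.2.trans q.2.symm) (num_injective h2))

lemma centralBinom_sq : ∀ k : ℕ, 1 ≤ k → 16 ^ k ≤ 4 * k * (Nat.centralBinom k) ^ 2
  | 0, h => by omega
  | 1, _ => by
      have : Nat.centralBinom 1 = 2 := by decide
      rw [this]
      norm_num
  | k + 2, _ => by
      have ih := centralBinom_sq (k + 1) (by omega)
      have h1 := Nat.succ_mul_centralBinom_succ (k + 1)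
      have h2 : (k + 2) ^ 2 * 16 ^ (k + 2) ≤ (k + 2) ^ 2 * (4 * (k + 2) * (Nat.centralBinom (k + 2)) ^ 2) := by
        have h3 : (k + 2) ^ 2 * (4 * (k + 2) * (Nat.centralBinom (k + 2)) ^ 2) =
            4 * (k + 2) * (2 * (2 * (k + 1) + 1) * Nat.centralBinom (k + 1)) ^ 2 := by
          rw [← h1]
          ring
        rw [h3]
        have h4 : (k + 2) ^ 2 * 16 ^ (k + 2) ≤ 16 * (k + 2) ^ 2 * (4 * (k + 1) * (Nat.centralBinom (k + 1)) ^ 2) := by
          calc (k + 2) ^ 2 * 16 ^ (k + 2) = 16 * (k + 2) ^ 2 * 16 ^ (k + 1) := by ring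
            _ ≤ _ := Nat.mul_le_mul_left _ ih
        refine h4.trans ?_
        have h5 : 16 * (k + 2) ^ 2 * (4 * (k + 1)) ≤ 4 * (k + 2) * (2 * (2 * (k + 1) + 1)) ^ 2 := by nlinarith
        calc 16 * (k + 2) ^ 2 * (4 * (k + 1) * (Nat.centralBinom (k + 1)) ^ 2) =
            (16 * (k + 2) ^ 2 * (4 * (k + 1))) * (Nat.centralBinom (k + 1)) ^ 2 := by ring
          _ ≤ (4 * (k + 2) * (2 * (2 * (k + 1) + 1)) ^ 2) * (Nat.centralBinom (k + 1)) ^ 2 :=
            Nat.mul_le_mul_right _ h5
          _ = _ := by ring
      exact Nat.le_of_mul_le_mul_left h2 (by positivity)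

lemma catalan_sq (k : ℕ) : 16 ^ k ≤ 4 * (k + 1) ^ 3 * (catalan k) ^ 2 := by
  have h1 := succ_mul_catalan_eq_centralBinom k
  have h2 : 4 * (k + 1) ^ 3 * (catalan k) ^ 2 = 4 * (k + 1) * (Nat.centralBinom k) ^ 2 := by
    rw [← h1]
    ring
  rw [h2]
  rcases Nat.eq_zero_or_pos k with rfl | hk
  · simp
  · refine (centralBinom_sq k hk).trans ?_
    exact Nat.mul_le_mul_right _ (by omega)

/-- the number of the weights up to `x` -/
theorem wt_large (x : ℕ) (hx : 3 ≤ x) :
    (x : ℝ) / (32 * Real.log x ^ (3 / 2 : ℝ)) ≤ ((Wt ∩ Set.Iic x).ncard : ℝ) := by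
  have hx0 : (0 : ℝ) < x := by positivity
  -- the estimate for `log x ≥ k + 1`
  have key : ∀ k : ℕ, ((k : ℝ) + 1) ≤ Real.log x → (x : ℝ) ≤ 16 * 4 ^ k →
      (x : ℝ) / (32 * Real.log x ^ (3 / 2 : ℝ)) ≤ (catalan k : ℝ) := by
    intro k h1 h2
    have hL : 0 < Real.log x := lt_of_lt_of_le (by positivity) h1
    set y := Real.log x ^ (3 / 2 : ℝ) with hy
    have hy0 : 0 < y := Real.rpow_pos_of_pos hL _
    have hy2 : y ^ 2 = Real.log x ^ 3 := by
      rw [hy, ← Real.rpow_natCast, ← Real.rpow_mul hL.le]
      norm_num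
    have h3 : ((k : ℝ) + 1) ^ 3 ≤ y ^ 2 := by
      rw [hy2]
      exact pow_le_pow_left₀ (by positivity) h1 3
    have h4 : (16 : ℝ) ^ k ≤ 4 * ((k : ℝ) + 1) ^ 3 * (catalan k : ℝ) ^ 2 := by
      exact_mod_cast catalan_sq k
    have h5 : ((4 : ℝ) ^ k) ^ 2 ≤ (2 * y * catalan k) ^ 2 := by
      calc ((4 : ℝ) ^ k) ^ 2 = 16 ^ k := by
            rw [← pow_mul, mul_comm, pow_mul]
            norm_num
        _ ≤ 4 * ((k : ℝ) + 1) ^ 3 * (catalan k : ℝ) ^ 2 := h4
        _ ≤ 4 * y ^ 2 * (catalan k : ℝ) ^ 2 := by
            apply mul_le_mul_of_nonneg_right _ (by positivity)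
            linarith
        _ = _ := by ring
    have h6 : (4 : ℝ) ^ k ≤ 2 * y * catalan k :=
      (pow_le_pow_iff_left₀ (by positivity) (by positivity) two_ne_zero).mp h5
    rw [div_le_iff₀ (by positivity)]
    linarith
  by_cases h4 : x < 4
  · have h3 : x = 3 := by omega
    subst h3
    have h5 := key 0 (by
      have : (1 : ℝ) ≤ Real.log ((3 : ℕ) : ℝ) := by
        rw [Real.le_log_iff_exp_le (by norm_num)]
        have := Real.exp_one_lt_d9
        push_cast
        linarith
      simpa using this) (by norm_num)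
    refine h5.trans ?_
    have h6 : 1 ≤ (Wt ∩ Set.Iic 3).ncard := by
      have hfin : (Wt ∩ Set.Iic 3).Finite := (Set.finite_Iic 3).subset Set.inter_subset_right
      rw [Nat.one_le_iff_ne_zero]
      intro h7
      rw [Set.ncard_eq_zero hfin] at h7
      have h8 : 3 ∈ Wt ∩ Set.Iic 3 := by
        refine ⟨⟨0, ?_⟩, by simp⟩
        have h9 : dset (DyckWord.toList 0) = ∅ := rfl
        unfold wset num
        rw [h9, DyckWord.semilength_zero]
        simp
      rw [h7] at h8
      exact h8
    simpa using (by exact_mod_cast h6 : (1 : ℝ) ≤ ((Wt ∩ Set.Iic 3).ncard : ℝ))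
  · have h4' : 4 ≤ x := by omega
    obtain ⟨k, hk⟩ : ∃ k, Nat.log 4 x = k + 1 := by
      have : 1 ≤ Nat.log 4 x := Nat.log_pos (by norm_num) h4'
      exact ⟨Nat.log 4 x - 1, by omega⟩
    have h5 : 4 ^ (k + 1) ≤ x := by
      rw [← hk]
      exact Nat.pow_log_le_self 4 (by omega)
    have h6 : x < 4 ^ (k + 2) := by
      have := Nat.lt_pow_succ_log_self (b := 4) (by norm_num) x
      rw [hk] at this
      exact this
    refine (key k ?_ ?_).trans (by exact_mod_cast wt_count k x h5)
    · have h7 : ((4 : ℝ)) ^ (k + 1) ≤ x := by exact_mod_cast h5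
      have h8 : Real.log ((4 : ℝ) ^ (k + 1)) ≤ Real.log x := Real.log_le_log (by positivity) h7
      rw [Real.log_pow] at h8
      have h9 : (1 : ℝ) ≤ Real.log 4 := by
        rw [Real.le_log_iff_exp_le (by norm_num)]
        have := Real.exp_one_lt_d9
        linarith
      push_cast at h8
      have h10 : ((k : ℝ) + 1) * 1 ≤ ((k : ℝ) + 1) * Real.log 4 :=
        mul_le_mul_of_nonneg_left h9 (by positivity)
      linarith
    · have h7 : (x : ℝ) < 4 ^ (k + 2) := by exact_mod_cast h6
      rw [pow_add] at h7
      linarith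

end Pool.Agent.U691.DM
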