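import Pool.Agent.N568.BK.DS3

/-!
# Freeness in bounded depth for weights in a residue class (helper691)
-/

set_option autoImplicit false

namespace Pool.Agent.U691.DM

open Finset Pool.Agent.H777R4.DM
open Pool.Agent.N568.BK (AR cR cR_rat cR_map)
open Pool.Agent.H861R3.DM.LeadN (evN PhiN_wd)
open Pool.Agent.N568.DSF (Dp evN_Dp evN_eq)

attribute [local instance 100] LieRing.ofAssociativeRing

/-- a linear dependence over `ℚ` gives one modulo `p` -/
lemma lift_mod {ι κ : Type} (p : ℕ) (hp : p.Prime) (F : Finset ι) (c : ι → κ → ℤ)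
    (hmod : ∀ μ : ι → ZMod p, (∀ k, ∑ i ∈ F, μ i * (c i k : ZMod p) = 0) → ∀ i ∈ F, μ i = 0)
    (lam : ι → ℚ) (h : ∀ k, ∑ i ∈ F, lam i * (c i k : ℚ) = 0) : ∀ i ∈ F, lam i = 0 := by
  classical
  have key : ∀ (n : ℕ) (z : ι → ℤ), (∀ k, ∑ i ∈ F, z i * c i k = 0) → ∀ i ∈ F, (p : ℤ) ^ n ∣ z i := by
    intro n
    induction n with
    | zero => intro z _ i _; simp
    | succ n ih =>
      intro z hz i hi
      have h1 := hmod (fun i => (z i : ZMod p)) (fun k => by
        have h2 := congrArg (Int.cast : ℤ → ZMod p) (hz k)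
        push_cast at h2
        exact h2)
      have h2 : ∀ i ∈ F, (p : ℤ) ∣ z i := fun i hi => (ZMod.intCast_zmod_eq_zero_iff_dvd (z i) p).mp (h1 i hi)
      have h3 := ih (fun i => z i / p) (fun k => by
        have h4 : (p : ℤ) * ∑ i ∈ F, z i / p * c i k = 0 := by
          rw [mul_sum, ← hz k]
          refine sum_congr rfl fun i hi => ?_
          rw [← mul_assoc, Int.mul_ediv_cancel' (h2 i hi)]
        exact (mul_eq_zero.mp h4).resolve_left (by exact_mod_cast hp.ne_zero)) i hi
      rw [← Int.mul_ediv_cancel' (h2 i hi), pow_succ']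
      exact mul_dvd_mul_left _ h3
  set N : ℕ := ∏ i ∈ F, (lam i).den with hN
  have hN0 : N ≠ 0 := prod_ne_zero_iff.mpr fun i _ => (lam i).den_nz
  have hz : ∀ i ∈ F, ∃ z : ℤ, (z : ℚ) = N * lam i := by
    intro i hi
    have h1 : (lam i).den ∣ N := dvd_prod_of_mem _ hi
    obtain ⟨t, ht⟩ := h1
    refine ⟨t * (lam i).num, ?_⟩
    rw [ht]
    push_cast
    have h2 := Rat.mul_den_eq_num (lam i)
    rw [← h2]
    ring
  choose! z hz using hz
  intro i hi
  have h1 : ∀ k, ∑ i ∈ F, z i * c i k = 0 := by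
    intro k
    have h2 : ((∑ i ∈ F, z i * c i k : ℤ) : ℚ) = 0 := by
      push_cast
      have h3 : (N : ℚ) * ∑ i ∈ F, lam i * (c i k : ℚ) = 0 := by rw [h k, mul_zero]
      rw [← h3, mul_sum]
      refine sum_congr rfl fun i hi => ?_
      rw [hz i hi]
      ring
    exact_mod_cast h2
  have h2 := key ((z i).natAbs + 1) z h1 i hi
  have h3 : z i = 0 := by
    apply Int.eq_zero_of_abs_lt_dvd h2
    rw [Int.abs_eq_natAbs]
    have h4 : (z i).natAbs + 1 < p ^ ((z i).natAbs + 1) := Nat.lt_pow_self hp.one_lt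
    have h5 : (((z i).natAbs : ℕ) : ℤ) < ((p ^ ((z i).natAbs + 1) : ℕ) : ℤ) := by
      exact_mod_cast (by omega : (z i).natAbs < p ^ ((z i).natAbs + 1))
    push_cast at h5 ⊢
    exact h5
  have h4 := hz i hi
  rw [h3] at h4
  have h5 : (N : ℚ) ≠ 0 := by exact_mod_cast hN0
  simpa [h5] using h4.symm

/-- from independence modulo `p` to the elements `ψ` -/
theorem dep_main (p : ℕ) (hpp : p.Prime) (B : Set ℕ) (D : ℕ)
    (hB : ∀ d, d ≤ D → ∀ (F : Finset (List ℕ)), (∀ w ∈ F, w.length = d ∧ ∀ x ∈ w, x ∈ B) →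
      ∀ mu : List ℕ → ZMod p, (∀ e : List ℕ, e.length = d → ∑ w ∈ F, mu w * cR (ZMod p) w e = 0) →
        ∀ w ∈ F, mu w = 0)
    (n : ℕ) (b : Fin n → ℕ) (hb : ∀ i, 1 ≤ b i) (hbB : ∀ i, b i ∈ B) (hbinj : Function.Injective b)
    (ψ : Fin n → A) (hL : ∀ i, ψ i ∈ LieX)
    (hhom : ∀ i u, co (ψ i) u ≠ 0 → u.length = 2 * b i + 1)
    (hne : ∀ i, co (ψ i) (wordX [2 * b i]) ≠ 0) (P : Al (Fin n)) (W0 : List (Fin n))
    (hW0 : co P W0 ≠ 0) (hWD : W0.length ≤ D) :
    ∃ v, co (PhiN ψ P) v ≠ 0 ∧ v.count 1 ≤ W0.length := by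
  classical
  by_contra hcon
  push Not at hcon
  have hcon' : ∀ v, v.count 1 ≤ W0.length → co (PhiN ψ P) v = 0 := by
    intro v hv
    by_contra h
    exact absurd (hcon v h) (by omega)
  -- all coefficients of length at most that of `W0` vanish
  suffices h : ∀ r : ℕ, r ≤ W0.length → ∀ W : List (Fin n), W.length = r → co P W = 0 from
    hW0 (h _ le_rfl W0 rfl)
  intro r
  induction r using Nat.strong_induction_on with
  | _ r ih =>
  intro hr W1 hW1
  set κ : List (Fin n) → ℚ := fun W => (W.map fun i => co (ψ i) (wordX [2 * b i])).prod with hκ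
  have hκ0 : ∀ W, κ W ≠ 0 := by
    intro W
    rw [hκ]
    simp only
    apply List.prod_ne_zero
    intro h
    rw [List.mem_map] at h
    obtain ⟨i, _, hi⟩ := h
    exact hne i hi
  set S : Finset (List (Fin n)) := (P.coeff.support.image FreeMonoid.toList).filter fun W => W.length = r
    with hS
  -- the coefficients of `PhiN ψ P`
  have hsum : ∀ e : List ℕ, e.length = r → ∑ W ∈ S, co P W * κ W * cR ℚ (W.map b) e = 0 := by
    intro e he
    have h1 : co (PhiN ψ P) (wordX e) = 0 := hcon' _ (by rw [wordX_count, he]; exact hr)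
    rw [Lead2.expand P, map_sum, Lead2.co_sum] at h1
    rw [← h1, hS, sum_filter, sum_image (fun x _ y _ h => FreeMonoid.toList.injective h)]
    refine sum_congr rfl fun m hm => ?_
    rw [map_smul, co_smul, PhiN_wd]
    by_cases h2 : (FreeMonoid.toList m).length = r
    · rw [if_pos h2, evN_eq ψ b hb hL hhom (FreeMonoid.toList m) e (by rw [he, h2])]
      ring
    · rw [if_neg h2]
      rcases Nat.lt_or_gt_of_ne h2 with h3 | h3
      · rw [ih _ h3 (by omega) _ rfl, zero_mul]
      · have h4 : co (evN ψ (FreeMonoid.toList m)) (wordX e) = 0 := by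
          by_contra h5
          have := evN_Dp ψ b hb hL hhom _ _ h5
          rw [wordX_count, he] at this
          omega
        rw [h4, mul_zero]
  by_cases hmem : W1 ∈ S
  · set lam : List ℕ → ℚ := fun w => ∑ W ∈ S, if W.map b = w then co P W * κ W else 0 with hlam
    have h1 := lift_mod (ι := List ℕ) (κ := {e : List ℕ // e.length = r}) p hpp (S.image (List.map b))
      (fun w e => cR ℤ w e.1) (fun mu hmu => by
        refine hB r (by omega) (S.image (List.map b)) ?_ mu (fun e he => ?_)
        · intro w hw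
          rw [mem_image] at hw
          obtain ⟨W, hW, rfl⟩ := hw
          rw [hS, mem_filter] at hW
          refine ⟨by rw [List.length_map]; exact hW.2, ?_⟩
          intro x hx
          rw [List.mem_map] at hx
          obtain ⟨i, _, rfl⟩ := hx
          exact hbB i
        · rw [← hmu ⟨e, he⟩]
          refine sum_congr rfl fun w _ => ?_
          congr 1
          exact (cR_map (Int.castRingHom (ZMod p)) w e).symm) lam (fun e => by
      have h2 := hsum e.1 e.2
      rw [← h2, sum_image (fun x _ y _ h => List.map_injective_iff.mpr hbinj h)]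
      refine sum_congr rfl fun W hW => ?_
      have h3 : (cR ℤ (W.map b) e.1 : ℚ) = cR ℚ (W.map b) e.1 :=
        cR_map (Int.castRingHom ℚ) (W.map b) e.1
      rw [h3]
      congr 1
      rw [hlam]
      simp only
      rw [sum_eq_single W]
      · rw [if_pos rfl]
      · intro W' _ hne'
        rw [if_neg]
        exact fun h => hne' (List.map_injective_iff.mpr hbinj h)
      · exact fun h => absurd hW h)
    have h2 := h1 (W1.map b) (mem_image_of_mem _ hmem)
    rw [hlam] at h2
    simp only at h2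
    rw [sum_eq_single W1] at h2
    · rw [if_pos rfl] at h2
      exact (mul_eq_zero.mp h2).resolve_right (hκ0 W1)
    · intro W' _ hne'
      rw [if_neg]
      exact fun h => hne' (List.map_injective_iff.mpr hbinj h)
    · exact fun h => absurd hmem h
  · by_contra h
    apply hmem
    rw [hS, mem_filter]
    refine ⟨?_, hW1⟩
    rw [mem_image]
    refine ⟨FreeMonoid.ofList W1, ?_, rfl⟩
    rw [Finsupp.mem_support_iff]
    exact h

end Pool.Agent.U691.DM
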