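import Pool.Agent.U691.DM.Dep

/-!
# Independence of words of letters in one residue class (helper691)
-/

set_option autoImplicit false

namespace Pool.Agent.U691.DM

open Finset Pool.Agent.H777R4.DM
open Pool.Agent.N568.BK (AR cR cR_rat cR_map)

/-- Lucas for prime powers -/
lemma lucas_pow (p : ℕ) (hp : p.Prime) : ∀ (r n k : ℕ),
    n.choose k ≡ (n % p ^ r).choose (k % p ^ r) * (n / p ^ r).choose (k / p ^ r) [MOD p]
  | 0, n, k => by simp [Nat.mod_one, Nat.ModEq]
  | r + 1, n, k => by
      have : Fact p.Prime := ⟨hp⟩
      have h1 : n.choose k ≡ (n % p).choose (k % p) * (n / p).choose (k / p) [MOD p] :=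
        Choose.choose_modEq_choose_mod_mul_choose_div_nat
      have h2 := lucas_pow p hp r (n / p) (k / p)
      have h3 : (n % p ^ (r + 1)).choose (k % p ^ (r + 1)) ≡
          (n % p).choose (k % p) * ((n / p) % p ^ r).choose ((k / p) % p ^ r) [MOD p] := by
        have h4 : (n % p ^ (r + 1)).choose (k % p ^ (r + 1)) ≡
          (n % p ^ (r + 1) % p).choose (k % p ^ (r + 1) % p) *
            (n % p ^ (r + 1) / p).choose (k % p ^ (r + 1) / p) [MOD p] :=
          Choose.choose_modEq_choose_mod_mul_choose_div_nat
        have h5 : ∀ x : ℕ, x % p ^ (r + 1) % p = x % p := fun x =>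
          Nat.mod_mod_of_dvd x (dvd_pow_self p (Nat.succ_ne_zero r))
        have h6 : ∀ x : ℕ, x % p ^ (r + 1) / p = (x / p) % p ^ r := fun x => by
          rw [pow_succ', Nat.mod_mul_right_div_self]
        rw [h5, h5, h6, h6] at h4
        exact h4
      have h7 : ∀ x : ℕ, x / p ^ (r + 1) = x / p / p ^ r := fun x => by
        rw [pow_succ', Nat.div_div_eq_div_mul]
      rw [h7, h7]
      calc n.choose k ≡ (n % p).choose (k % p) * (n / p).choose (k / p) [MOD p] := h1
        _ ≡ (n % p).choose (k % p) * (((n / p) % p ^ r).choose ((k / p) % p ^ r) *
            (n / p / p ^ r).choose (k / p / p ^ r)) [MOD p] := h2.mul_left _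
        _ = ((n % p).choose (k % p) * ((n / p) % p ^ r).choose ((k / p) % p ^ r)) *
            (n / p / p ^ r).choose (k / p / p ^ r) := by ring
        _ ≡ _ [MOD p] := (h3.symm).mul_right _

/-- Lucas, in `ZMod p` -/
lemma lucas_cast (p : ℕ) (hp : p.Prime) (r n k : ℕ) :
    ((n.choose k : ℕ) : ZMod p) =
      ((n % p ^ r).choose (k % p ^ r) : ZMod p) * ((n / p ^ r).choose (k / p ^ r) : ZMod p) := by
  have h := (ZMod.natCast_eq_natCast_iff _ _ p).mpr (lucas_pow p hp r n k)
  rw [h]
  push_cast
  ring

/-- the sum of the last digits -/
def dg (q : ℕ) (e : List ℕ) : ℕ := (e.map (· % q)).sum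

lemma dg_cons (q k : ℕ) (e : List ℕ) : dg q (k :: e) = k % q + dg q e := by
  simp [dg]

lemma AR_zero' {R : Type} [CommRing R] (b : ℕ) : ∀ (e : List ℕ), AR b (fun _ => (0 : R)) e = 0
  | [] => rfl
  | [k] => by unfold AR; split_ifs <;> rfl
  | k :: l :: e => by
      unfold AR
      rw [AR_zero' b (l :: e)]
      simp

lemma AR_cons {R : Type} [CommRing R] (b k l : ℕ) (e : List ℕ) (g : List ℕ → R) :
    AR b g (k :: l :: e) = AR b (fun e' => g (k :: e')) (l :: e) +
      if 2 * b ≤ k + l then
        ((-1) ^ k * ((2 * b).choose k : R) - (-1) ^ l * ((2 * b).choose l : R)) *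
          g ((k + l - 2 * b) :: e)
      else 0 := rfl

lemma cR_cons {R : Type} [CommRing R] (b : ℕ) (w e : List ℕ) :
    cR R (b :: w) e = AR b (cR R w) e := rfl

lemma dig_arith {q m k l c : ℕ} (hm : m % q = c) (hkl : m ≤ k + l)
    (hc : k % q ≤ c ∨ l % q ≤ c) (ht : (k + l - m) % q + c < q) :
    k % q + l % q = (k + l - m) % q + c := by
  have hq : 0 < q := by omega
  have h1 : (k % q + l % q) ≡ (k + l - m) % q + c [MOD q] := by
    have h2 : k % q + l % q ≡ k + l [MOD q] := (Nat.mod_modEq k q).add (Nat.mod_modEq l q)
    have h3 : (k + l - m) % q + c ≡ (k + l - m) + m [MOD q] := by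
      rw [← hm]
      exact (Nat.mod_modEq _ q).add (Nat.mod_modEq m q)
    rw [Nat.sub_add_cancel hkl] at h3
    exact h2.trans h3.symm
  have hk := Nat.mod_lt k hq
  have hl := Nat.mod_lt l hq
  rcases Nat.lt_or_ge (k % q + l % q) q with h4 | h4
  · exact Nat.ModEq.eq_of_lt_of_lt h1 h4 ht
  · have h5 : (k % q + l % q - q) ≡ (k + l - m) % q + c [MOD q] := by
      have h6 : k % q + l % q - q + q ≡ (k + l - m) % q + c [MOD q] := by
        rw [Nat.sub_add_cancel h4]
        exact h1
      exact (Nat.ModEq.symm (by simp [Nat.ModEq])).trans h6
    have h7 := Nat.ModEq.eq_of_lt_of_lt h5 (by omega) ht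
    omega

section

variable {p r c : ℕ} (hp : p.Prime)

include hp

lemma choose_zero {m k : ℕ} (hm : m % p ^ r = c) (hk : c < k % p ^ r) :
    ((m.choose k : ℕ) : ZMod p) = 0 := by
  rw [lucas_cast p hp r, hm, Nat.choose_eq_zero_of_lt hk]
  simp

lemma AR_dig {b : ℕ} (hm : (2 * b) % p ^ r = c) : ∀ (e : List ℕ) (g : List ℕ → ZMod p) (A0 S : ℕ),
    (∀ e', g e' ≠ 0 → A0 + dg (p ^ r) e' = S) → S + c < p ^ r → AR b g e ≠ 0 →
      A0 + dg (p ^ r) e = S + c
  | [], g, A0, S, _, _, h => absurd rfl h
  | [k], g, A0, S, hg, _, h => by
      unfold AR at h
      by_cases hk : k = 2 * b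
      · rw [if_pos hk] at h
        have := hg [] h
        rw [dg_cons, hk, hm]
        omega
      · rw [if_neg hk] at h
        exact absurd rfl h
  | k :: l :: e, g, A0, S, hg, hS, h => by
      unfold AR at h
      by_cases h1 : AR b (fun e' => g (k :: e')) (l :: e) = 0
      · rw [h1, zero_add] at h
        by_cases hkl : 2 * b ≤ k + l
        · rw [if_pos hkl] at h
          have h2 := left_ne_zero_of_mul h
          have h3 := hg _ (right_ne_zero_of_mul h)
          rw [dg_cons] at h3
          have h4 : k % p ^ r ≤ c ∨ l % p ^ r ≤ c := by
            by_contra hcon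
            push Not at hcon
            apply h2
            rw [choose_zero hp hm hcon.1, choose_zero hp hm hcon.2]
            ring
          have h5 := dig_arith hm hkl h4 (by omega)
          rw [dg_cons, dg_cons]
          omega
        · rw [if_neg hkl] at h
          exact absurd rfl h
      · have h2 := AR_dig hm (l :: e) (fun e' => g (k :: e')) (A0 + k % p ^ r) S (fun e' he' => by
          have := hg _ he'
          rw [dg_cons] at this
          omega) hS h1
        rw [dg_cons]
        omega

lemma cR_dig : ∀ (w : List ℕ), (∀ x ∈ w, (2 * x) % p ^ r = c) → w.length * c < p ^ r →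
    ∀ e, cR (ZMod p) w e ≠ 0 → dg (p ^ r) e = w.length * c
  | [], _, _, e, h => by
      unfold cR at h
      by_cases he : e = []
      · rw [he]
        simp [dg]
      · rw [if_neg he] at h
        exact absurd rfl h
  | b :: w, hw, hlen, e, h => by
      unfold cR at h
      rw [List.length_cons] at hlen ⊢
      have h1 := AR_dig (p := p) (r := r) (c := c) hp (hw b (by simp)) e (cR (ZMod p) w) 0
        (w.length * c) (fun e' he' => by
          rw [zero_add]
          exact cR_dig w (fun x hx => hw x (List.mem_cons_of_mem _ hx)) (by
            have : w.length * c ≤ (w.length + 1) * c := Nat.mul_le_mul_right _ (by omega)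
            omega) e' he') (by
          have : w.length * c + c = (w.length + 1) * c := by ring
          omega) h
      rw [zero_add] at h1
      rw [h1]
      ring

/-- one step at the special coefficients -/
lemma cR_step {b : ℕ} {w : List ℕ} (hw : ∀ x ∈ b :: w, (2 * x) % p ^ r = c) (hc : 1 ≤ c)
    (hlen : (w.length + 1) * c < p ^ r) (hne : w ≠ []) (k l : ℕ) (e : List ℕ)
    (hk : k % p ^ r = (w.length + 1) * c) :
    cR (ZMod p) (b :: w) (k :: l :: e) = if 2 * b ≤ k + l then
      - ((-1) ^ l * ((2 * b).choose l : ZMod p)) * cR (ZMod p) w ((k + l - 2 * b) :: e) else 0 := by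
  have hwl : 1 ≤ w.length := List.length_pos_iff.mpr hne
  have h0 : (w.length + 1) * c = w.length * c + c := by ring
  have h0' : c ≤ w.length * c := Nat.le_mul_of_pos_left c hwl
  rw [cR_cons, AR_cons]
  have h1 : (fun e' => cR (ZMod p) w (k :: e')) = fun _ => 0 := by
    funext e'
    by_contra h
    have h2 := cR_dig hp w (fun x hx => hw x (List.mem_cons_of_mem _ hx)) (by omega) _ h
    rw [dg_cons, hk] at h2
    omega
  rw [h1, AR_zero', zero_add, choose_zero hp (hw b (by simp)) (by omega), mul_zero, zero_sub]

/-- the words are independent -/
theorem indep_class (hc : 1 ≤ c) : ∀ (d : ℕ), (d + 1) * c < p ^ r → ∀ (F : Finset (List ℕ)),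
    (∀ w ∈ F, w.length = d + 1 ∧ ∀ x ∈ w, (2 * x) % p ^ r = c) → ∀ mu : List ℕ → ZMod p,
    (∀ (k : ℕ) (e : List ℕ), k % p ^ r = (d + 1) * c → e.length = d →
      ∑ w ∈ F, mu w * cR (ZMod p) w (k :: e) = 0) → ∀ w ∈ F, mu w = 0
  | 0, _, F, hF, mu, h, w, hw => by
      obtain ⟨b, hb⟩ := List.length_eq_one_iff.mp (hF w hw).1
      have h1 := h (2 * b) [] (by
        rw [zero_add, one_mul]
        exact (hF w hw).2 b (by rw [hb]; simp)) rfl
      rw [sum_eq_single w] at h1
      · rw [hb] at h1 ⊢
        have h2 : cR (ZMod p) [b] [2 * b] = 1 := by
          unfold cR AR cR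
          simp
        rwa [h2, mul_one] at h1
      · intro w' hw' hne
        obtain ⟨b', hb'⟩ := List.length_eq_one_iff.mp (hF w' hw').1
        have h2 : cR (ZMod p) w' [2 * b] = 0 := by
          rw [hb']
          unfold cR AR cR
          rw [if_neg]
          intro h3
          apply hne
          rw [hb, hb', show b' = b by omega]
        rw [h2, mul_zero]
      · exact fun h2 => absurd hw h2
  | d + 1, hd, F, hF, mu, h, w0, hw0 => by
      classical
      by_contra hmu
      -- the largest first letter
      obtain ⟨w1, hw1, hmax⟩ := exists_max_image (F.filter fun w => mu w ≠ 0) (fun w => w.headD 0)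
        ⟨w0, by rw [mem_filter]; exact ⟨hw0, hmu⟩⟩
      rw [mem_filter] at hw1
      obtain ⟨b1, v1, hw1e⟩ : ∃ b v, w1 = b :: v := by
        cases hh : w1 with
        | nil =>
          have := (hF w1 hw1.1).1
          rw [hh] at this
          simp at this
        | cons b v => exact ⟨b, v, rfl⟩
      have hb1 : (2 * b1) % p ^ r = c := (hF w1 hw1.1).2 b1 (by rw [hw1e]; simp)
      set l : ℕ := 2 * b1 - c with hl
      have hcb : c ≤ 2 * b1 := by
        rw [← hb1]
        exact Nat.mod_le _ _
      have hl0 : l % p ^ r = 0 := by
        rw [hl, ← hb1]
        exact Nat.sub_mod_eq_zero_of_mod_eq (by simp)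
      have hldiv : l / p ^ r = (2 * b1) / p ^ r := by
        have h1 : l = p ^ r * (2 * b1 / p ^ r) := by
          have := Nat.div_add_mod (2 * b1) (p ^ r)
          rw [hb1] at this
          omega
        have hpos : 0 < p ^ r := pow_pos hp.pos _
        rw [h1]
        exact Nat.mul_div_cancel_left _ hpos
      set G : Finset (List ℕ) := (F.filter fun w => w.headD 0 = b1).image List.tail with hG
      have hGF : ∀ v ∈ G, b1 :: v ∈ F := by
        intro v hv
        rw [hG, mem_image] at hv
        obtain ⟨w, hw, rfl⟩ := hv
        rw [mem_filter] at hw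
        cases hh : w with
        | nil =>
          have := (hF w hw.1).1
          rw [hh] at this
          simp at this
        | cons b v =>
          rw [hh] at hw
          simp only [List.headD_cons] at hw
          rw [List.tail_cons, ← hw.2]
          exact hw.1
      have h1 := indep_class hc d (by
        have : (d + 1 + 1) * c = (d + 1) * c + c := by ring
        omega) G (fun v hv => by
          have h2 := hF _ (hGF v hv)
          refine ⟨by simpa using h2.1, fun x hx => h2.2 x (List.mem_cons_of_mem _ hx)⟩)
        (fun v => mu (b1 :: v)) (fun k e hk he => by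
          have h2 := h (k + c) (l :: e) (by
            have h3 : (k + c) % p ^ r = (k % p ^ r + c) % p ^ r := by
              rw [Nat.add_mod, Nat.add_mod (k % p ^ r) c, Nat.mod_mod]
            rw [h3, hk, Nat.mod_eq_of_lt (by
              have : (d + 1 + 1) * c = (d + 1) * c + c := by ring
              omega)]
            ring) (by simpa using he)
          have h4 : ∑ w ∈ F, mu w * cR (ZMod p) w ((k + c) :: l :: e) =
              -((-1) ^ l) * ∑ v ∈ G, mu (b1 :: v) * cR (ZMod p) v (k :: e) := by
            rw [hG, sum_image (by
              intro x hx y hy hxy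
              rw [Finset.mem_coe, mem_filter] at hx hy
              cases hx1 : x with
              | nil =>
                have := (hF x hx.1).1
                rw [hx1] at this
                simp at this
              | cons bx vx =>
                cases hy1 : y with
                | nil =>
                  have := (hF y hy.1).1
                  rw [hy1] at this
                  simp at this
                | cons by' vy =>
                  rw [hx1] at hx hxy
                  rw [hy1] at hy hxy
                  simp only [List.headD_cons] at hx hy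
                  simp only [List.tail_cons] at hxy
                  rw [hx.2, hy.2, hxy]), mul_sum, sum_filter]
            refine sum_congr rfl fun w hw => ?_
            cases hh : w with
            | nil =>
              have := (hF w hw).1
              rw [hh] at this
              simp at this
            | cons b v =>
              have hFw := hF w hw
              rw [hh] at hFw hw
              have hvl : v.length = d + 1 := by simpa using hFw.1
              rw [cR_step hp hFw.2 hc (by rw [hvl]; exact hd) (by
                intro h5
                rw [h5] at hvl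
                simp at hvl) (k + c) l e (by
                rw [hvl]
                have h3 : (k + c) % p ^ r = (k % p ^ r + c) % p ^ r := by
                  rw [Nat.add_mod, Nat.add_mod (k % p ^ r) c, Nat.mod_mod]
                rw [h3, hk, Nat.mod_eq_of_lt (by
                  have : (d + 1 + 1) * c = (d + 1) * c + c := by ring
                  omega)]
                ring)]
              by_cases hbb' : (b :: v).headD 0 = b1
              · have hbb : b = b1 := hbb'
                rw [if_pos hbb', hbb, if_pos (by omega), show k + c + l - 2 * b1 = k by omega,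
                  List.tail_cons]
                have h6 : (((2 * b1).choose l : ℕ) : ZMod p) = 1 := by
                  rw [lucas_cast p hp r, hl0, hldiv]
                  simp
                rw [h6]
                ring
              · have hbb : ¬ b = b1 := hbb'
                rw [if_neg hbb']
                by_cases hmw : mu (b :: v) = 0
                · rw [hmw, zero_mul]
                · have hle := hmax (b :: v) (by rw [mem_filter]; exact ⟨hw, hmw⟩)
                  rw [hw1e] at hle
                  simp only [List.headD_cons] at hle
                  have h6 : (((2 * b).choose l : ℕ) : ZMod p) = 0 := by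
                    have h7 : 2 * b < l := by
                      have h8 : (2 * b) % p ^ r = c := hFw.2 b (by simp)
                      have h9 : 2 * b < 2 * b1 := by omega
                      have h10 := Nat.div_add_mod (2 * b) (p ^ r)
                      have h11 := Nat.div_add_mod (2 * b1) (p ^ r)
                      rw [h8] at h10
                      rw [hb1] at h11
                      have h12 : (2 * b) / p ^ r < (2 * b1) / p ^ r := by
                        by_contra h13
                        push Not at h13
                        have := Nat.mul_le_mul_left (p ^ r) h13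
                        omega
                      have h14 := Nat.mul_le_mul_left (p ^ r) h12
                      rw [Nat.mul_succ] at h14
                      have : c < p ^ r := by
                        rw [← hb1]
                        exact Nat.mod_lt _ (pow_pos hp.pos _)
                      omega
                    rw [Nat.choose_eq_zero_of_lt h7, Nat.cast_zero]
                  rw [h6]
                  split_ifs <;> ring
          rw [h4] at h2
          have h5 : (-((-1 : ZMod p) ^ l)) ≠ 0 := by
            have : Fact p.Prime := ⟨hp⟩
            rw [neg_ne_zero]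
            exact pow_ne_zero _ (neg_ne_zero.mpr one_ne_zero)
          have : Fact p.Prime := ⟨hp⟩
          exact (mul_eq_zero.mp h2).resolve_left h5) v1 (by
        rw [hG, mem_image]
        refine ⟨w1, ?_, by rw [hw1e]; rfl⟩
        rw [mem_filter]
        refine ⟨hw1.1, by rw [hw1e]; rfl⟩)
      apply hw1.2
      rw [hw1e]
      exact h1

end

end Pool.Agent.U691.DM
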