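import Pool.Agent.U691.DM.Dep1

/-!
# Depth two, weights `2`, `3`, `4` modulo `5` (helper691)
-/

set_option autoImplicit false

namespace Pool.Agent.U691.DM

open Finset Pool.Agent.H777R4.DM
open Pool.Agent.N568.BK (AR cR cR_rat cR_map)

lemma inv_binom {R : Type} [CommRing R] (N : ℕ) (g : ℕ → R)
    (h : ∀ j < N, ∑ a ∈ range N, g a * (a.choose j : R) = 0) : ∀ a < N, g a = 0 := by
  classical
  by_contra hcon
  push Not at hcon
  obtain ⟨a0, ha0, hg0⟩ := hcon
  obtain ⟨a, ha, hmax⟩ := exists_max_image ((range N).filter fun a => g a ≠ 0) id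
    ⟨a0, by rw [mem_filter, mem_range]; exact ⟨ha0, hg0⟩⟩
  rw [mem_filter, mem_range] at ha
  apply ha.2
  have h1 := h a ha.1
  rw [sum_eq_single a] at h1
  · simpa using h1
  · intro b hb hne
    by_cases hgb : g b = 0
    · rw [hgb, zero_mul]
    · have h2 := hmax b (by rw [mem_filter]; exact ⟨hb, hgb⟩)
      simp only [id] at h2
      rw [Nat.choose_eq_zero_of_lt (by omega), Nat.cast_zero, mul_zero]
  · intro h2
    exact absurd (mem_range.mpr ha.1) h2

lemma sum_five {R : Type} [AddCommMonoid R] (g : ℕ → R) : ∀ N : ℕ, ∑ m ∈ range (5 * N), g m =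
    ∑ a ∈ range N, (g (5 * a) + g (5 * a + 1) + g (5 * a + 2) + g (5 * a + 3) + g (5 * a + 4))
  | 0 => by simp
  | N + 1 => by
      rw [sum_range_succ, ← sum_five g N, show 5 * (N + 1) = 5 * N + 1 + 1 + 1 + 1 + 1 by ring,
        sum_range_succ, sum_range_succ, sum_range_succ, sum_range_succ, sum_range_succ]
      simp only [add_assoc]

lemma luc5 (a j c i : ℕ) (hc : c < 5) (hi : i < 5) : (((5 * a + c).choose (5 * j + i) : ℕ) : ZMod 5) =
    (c.choose i : ZMod 5) * (a.choose j : ZMod 5) := by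
  rw [lucas_cast 5 (by norm_num) 1]
  rw [show (5 * a + c) % 5 ^ 1 = c by omega, show (5 * j + i) % 5 ^ 1 = i by omega,
    show (5 * a + c) / 5 ^ 1 = a by omega, show (5 * j + i) / 5 ^ 1 = j by omega]

section

variable (s n : ℕ) (f : ℕ → ZMod 5)

/-- the binomial transform -/
def Ef (k : ℕ) : ZMod 5 := ∑ m ∈ range (s + 1), f m * (m.choose k : ZMod 5)

def Uf (c j : ℕ) : ZMod 5 := ∑ a ∈ range (n + 1), f (5 * a + c) * (a.choose j : ZMod 5)

lemma Ef_eq (hn : s < 5 * (n + 1)) (hf : ∀ m, f m ≠ 0 → m ≤ s ∧ (m % 5 = 1 ∨ m % 5 = 2 ∨ m % 5 = 3))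
    (j i : ℕ) (hi : i < 5) : Ef s f (5 * j + i) = (Nat.choose 1 i : ZMod 5) * Uf n f 1 j +
      (Nat.choose 2 i : ZMod 5) * Uf n f 2 j + (Nat.choose 3 i : ZMod 5) * Uf n f 3 j := by
  have h0 : ∀ a c, (c = 0 ∨ c = 4) → f (5 * a + c) = 0 := by
    intro a c hc
    by_contra h
    have := hf _ h
    omega
  have h1 : Ef s f (5 * j + i) = ∑ m ∈ range (5 * (n + 1)), f m * (m.choose (5 * j + i) : ZMod 5) := by
    unfold Ef
    refine sum_subset (range_subset_range.mpr (by omega)) fun m _ hm => ?_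
    rw [mem_range] at hm
    have : f m = 0 := by
      by_contra h
      have := (hf _ h).1
      omega
    rw [this, zero_mul]
  rw [h1, sum_five]
  unfold Uf
  rw [mul_sum, mul_sum, mul_sum, ← sum_add_distrib, ← sum_add_distrib]
  refine sum_congr rfl fun a _ => ?_
  have h2 := h0 a 0 (Or.inl rfl)
  have h3 := h0 a 4 (Or.inr rfl)
  rw [add_zero] at h2
  rw [h2, h3, luc5 a j 1 i (by norm_num) hi, luc5 a j 2 i (by norm_num) hi, luc5 a j 3 i (by norm_num) hi]
  ring

end

lemma two_ne : (2 : ZMod 5) ≠ 0 := by decide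

lemma three_ne : (3 : ZMod 5) ≠ 0 := by decide

/-- no relation modulo `5` -/
theorem core5 (s : ℕ) (hs : Even s) (f : ℕ → ZMod 5)
    (hf : ∀ m, f m ≠ 0 → m ≤ s ∧ Even m ∧ (m % 5 = 1 ∨ m % 5 = 2 ∨ m % 5 = 3) ∧
      ((s - m) % 5 = 1 ∨ (s - m) % 5 = 2 ∨ (s - m) % 5 = 3))
    (rel : ∀ k l, k + l = s → f l + (-1) ^ k * Ef s f k - (-1) ^ l * Ef s f l = 0) :
    ∀ m, f m = 0 := by
  have : Fact (Nat.Prime 5) := ⟨by norm_num⟩
  obtain ⟨s2, hs2⟩ := hs
  obtain ⟨n, hn⟩ : ∃ n, n = s / 5 := ⟨_, rfl⟩
  have hsn : s < 5 * (n + 1) := by omega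
  have hE := Ef_eq s n f hsn (fun m h => ⟨(hf m h).1, (hf m h).2.2.1⟩)
  have z1 : ∀ l, ¬ (l % 5 = 1 ∨ l % 5 = 2 ∨ l % 5 = 3) → f l = 0 := by
    intro l hl
    by_contra h
    exact hl (hf l h).2.2.1
  have z2 : ∀ l, ¬ ((s - l) % 5 = 1 ∨ (s - l) % 5 = 2 ∨ (s - l) % 5 = 3) → f l = 0 := by
    intro l hl
    by_contra h
    exact hl (hf l h).2.2.2
  have z3 : ∀ l, s < l → f l = 0 := by
    intro l hl
    by_contra h
    have := (hf l h).1
    omega
  have z4 : ∀ l, l % 2 = 1 → f l = 0 := by
    intro l hl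
    by_contra h
    obtain ⟨t, ht⟩ := (hf l h).2.1
    omega
  -- the simple relations
  have rel0 : ∀ k l, k + l = s → f l = 0 → Ef s f k = 0 → Ef s f l = 0 := by
    intro k l hkl h1 h2
    have h3 := rel k l hkl
    rw [h1, h2, mul_zero, add_zero, zero_sub, neg_eq_zero] at h3
    exact (mul_eq_zero.mp h3).resolve_left (pow_ne_zero _ (neg_ne_zero.mpr one_ne_zero))
  -- the end of the proof
  have fin : (∀ a < n + 1, f (5 * a + 1) = 0 ∧ f (5 * a + 2) = 0 ∧ f (5 * a + 3) = 0) → ∀ m, f m = 0 := by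
    intro h m
    by_contra hm
    have h1 := hf m hm
    obtain ⟨a, ha⟩ : ∃ a, a = m / 5 := ⟨_, rfl⟩
    have h2 := h a (by omega)
    rcases h1.2.2.1 with h3 | h3 | h3
    · exact hm (by rw [show m = 5 * a + 1 by omega]; exact h2.1)
    · exact hm (by rw [show m = 5 * a + 2 by omega]; exact h2.2.1)
    · exact hm (by rw [show m = 5 * a + 3 by omega]; exact h2.2.2)
  have hUsum : ∀ (c1 c2 c3 : ZMod 5), (∀ j < n + 1, c1 * Uf n f 1 j + c2 * Uf n f 2 j + c3 * Uf n f 3 j = 0) →
      ∀ a < n + 1, c1 * f (5 * a + 1) + c2 * f (5 * a + 2) + c3 * f (5 * a + 3) = 0 := by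
    intro c1 c2 c3 h
    refine inv_binom (n + 1) (fun a => c1 * f (5 * a + 1) + c2 * f (5 * a + 2) + c3 * f (5 * a + 3))
      fun j hj => ?_
    rw [← h j hj]
    unfold Uf
    rw [mul_sum, mul_sum, mul_sum, ← sum_add_distrib, ← sum_add_distrib]
    refine sum_congr rfl fun a _ => ?_
    ring
  have hmod : s % 5 = 0 ∨ s % 5 = 1 ∨ s % 5 = 2 ∨ s % 5 = 3 ∨ s % 5 = 4 := by omega
  rcases hmod with hr | hr | hr | hr | hr
  · -- `s = 5 n`
    have h1 := hUsum 0 2 3 (fun j hj => by
      rcases Nat.lt_or_ge j n with hjn | hjn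
      · have h2 := hE (n - 1 - j) 4 (by norm_num)
        have h3 := hE j 1 (by norm_num)
        have h4 := rel0 (5 * (n - 1 - j) + 4) (5 * j + 1) (by omega) (z2 _ (by omega)) (by
          rw [h2]
          norm_num [Nat.choose])
        rw [h3] at h4
        have h5 : Uf n f 1 j = 0 := by
          unfold Uf
          refine sum_eq_zero fun a ha => ?_
          rw [mem_range] at ha
          rw [z2 (5 * a + 1) (by omega), zero_mul]
        rw [h5] at h4 ⊢
        norm_num [Nat.choose] at h4 ⊢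
        exact h4
      · have h5 : ∀ c, (c = 1 ∨ c = 2 ∨ c = 3) → Uf n f c j = 0 := by
          intro c hc
          unfold Uf
          refine sum_eq_zero fun a ha => ?_
          rw [mem_range] at ha
          rcases Nat.lt_or_ge a j with h6 | h6
          · rw [Nat.choose_eq_zero_of_lt h6, Nat.cast_zero, mul_zero]
          · rw [z3 (5 * a + c) (by omega), zero_mul]
        rw [h5 1 (by simp), h5 2 (by simp), h5 3 (by simp)]
        ring)
    refine fin fun a ha => ?_
    have h2 := h1 a ha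
    have h3 : f (5 * a + 1) = 0 := by
      rcases Nat.lt_or_ge a n with h | h
      · exact z2 _ (by omega)
      · exact z3 _ (by omega)
    rw [h3] at h2
    rcases Nat.even_or_odd' a with ⟨t, ht | ht⟩
    · have h4 : f (5 * a + 3) = 0 := z4 _ (by omega)
      rw [h4] at h2
      refine ⟨h3, ?_, h4⟩
      have h5 : (2 : ZMod 5) * f (5 * a + 2) = 0 := by linear_combination h2
      exact (mul_eq_zero.mp h5).resolve_left two_ne
    · have h4 : f (5 * a + 2) = 0 := z4 _ (by omega)
      rw [h4] at h2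
      refine ⟨h3, h4, ?_⟩
      have h5 : (3 : ZMod 5) * f (5 * a + 3) = 0 := by linear_combination h2
      exact (mul_eq_zero.mp h5).resolve_left three_ne
  · -- `s = 5 n + 1`
    have h12 : ∀ a, f (5 * a + 1) = 0 ∧ f (5 * a + 2) = 0 := by
      intro a
      constructor
      · rcases Nat.lt_or_ge s (5 * a + 1) with h | h
        · exact z3 _ h
        · exact z2 _ (by omega)
      · rcases Nat.lt_or_ge s (5 * a + 2) with h | h
        · exact z3 _ h
        · exact z2 _ (by omega)
    have hU : ∀ j, Uf n f 1 j = 0 ∧ Uf n f 2 j = 0 := by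
      intro j
      unfold Uf
      constructor
      · exact sum_eq_zero fun a _ => by rw [(h12 a).1, zero_mul]
      · exact sum_eq_zero fun a _ => by rw [(h12 a).2, zero_mul]
    have h1 := hUsum 0 0 3 (fun j hj => by
      rcases Nat.lt_or_ge j n with hjn | hjn
      · have h2 := hE (n - 1 - j) 4 (by norm_num)
        have h3 := hE j 2 (by norm_num)
        have h4 := rel0 (5 * (n - 1 - j) + 4) (5 * j + 2) (by omega) (h12 j).2 (by
          rw [h2]
          norm_num [Nat.choose])
        rw [h3] at h4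
        rw [(hU j).1, (hU j).2] at h4 ⊢
        norm_num [Nat.choose] at h4 ⊢
        exact h4
      · have h5 : Uf n f 3 j = 0 := by
          unfold Uf
          refine sum_eq_zero fun a ha => ?_
          rw [mem_range] at ha
          rcases Nat.lt_or_ge a j with h6 | h6
          · rw [Nat.choose_eq_zero_of_lt h6, Nat.cast_zero, mul_zero]
          · rw [z3 (5 * a + 3) (by omega), zero_mul]
        rw [(hU j).1, (hU j).2, h5]
        ring)
    refine fin fun a ha => ⟨(h12 a).1, (h12 a).2, ?_⟩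
    have h5 : (3 : ZMod 5) * f (5 * a + 3) = 0 := by linear_combination h1 a ha
    exact (mul_eq_zero.mp h5).resolve_left three_ne
  · -- `s = 5 n + 2`
    have h23 : ∀ a, f (5 * a + 2) = 0 ∧ f (5 * a + 3) = 0 := by
      intro a
      constructor
      · rcases Nat.lt_or_ge s (5 * a + 2) with h | h
        · exact z3 _ h
        · exact z2 _ (by omega)
      · rcases Nat.lt_or_ge s (5 * a + 3) with h | h
        · exact z3 _ h
        · exact z2 _ (by omega)
    have hU : ∀ j, Uf n f 2 j = 0 ∧ Uf n f 3 j = 0 := by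
      intro j
      unfold Uf
      constructor
      · exact sum_eq_zero fun a _ => by rw [(h23 a).1, zero_mul]
      · exact sum_eq_zero fun a _ => by rw [(h23 a).2, zero_mul]
    have h1 := hUsum 1 0 0 (fun j hj => by
      have h2 := hE (n - j) 2 (by norm_num)
      have h3 := hE j 0 (by norm_num)
      have h4 := rel0 (5 * (n - j) + 2) (5 * j + 0) (by omega) (z1 _ (by omega)) (by
        rw [h2, (hU _).1, (hU _).2]
        norm_num [Nat.choose])
      rw [h3] at h4
      rw [(hU j).1, (hU j).2] at h4 ⊢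
      norm_num [Nat.choose] at h4 ⊢
      exact h4)
    refine fin fun a ha => ⟨?_, (h23 a).1, (h23 a).2⟩
    linear_combination h1 a ha
  · -- `s = 5 n + 3`
    have h30 : ∀ a, f (5 * a + 3) = 0 := by
      intro a
      rcases Nat.lt_or_ge s (5 * a + 3) with h | h
      · exact z3 _ h
      · exact z2 _ (by omega)
    have hU : ∀ j, Uf n f 3 j = 0 := by
      intro j
      unfold Uf
      exact sum_eq_zero fun a _ => by rw [h30 a, zero_mul]
    have h1 := hUsum 1 1 0 (fun j hj => by
      have h2 := hE (n - j) 3 (by norm_num)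
      have h3 := hE j 0 (by norm_num)
      have h4 := rel0 (5 * (n - j) + 3) (5 * j + 0) (by omega) (z1 _ (by omega)) (by
        rw [h2, hU]
        norm_num [Nat.choose])
      rw [h3] at h4
      rw [hU j] at h4 ⊢
      norm_num [Nat.choose] at h4 ⊢
      exact h4)
    refine fin fun a ha => ?_
    have h2 := h1 a ha
    rcases Nat.even_or_odd' a with ⟨t, ht | ht⟩
    · have h4 : f (5 * a + 1) = 0 := z4 _ (by omega)
      rw [h4] at h2
      exact ⟨h4, by linear_combination h2, h30 a⟩
    · have h4 : f (5 * a + 2) = 0 := z4 _ (by omega)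
      rw [h4] at h2
      exact ⟨by linear_combination h2, h4, h30 a⟩
  · -- `s = 5 n + 4`
    have hne : n % 2 = 0 := by omega
    have h1 := hUsum 1 1 1 (fun j hj => by
      have h2 := hE (n - j) 4 (by norm_num)
      have h3 := hE j 0 (by norm_num)
      have h4 := rel0 (5 * (n - j) + 4) (5 * j + 0) (by omega) (z1 _ (by omega)) (by
        rw [h2]
        norm_num [Nat.choose])
      rw [h3] at h4
      norm_num [Nat.choose] at h4 ⊢
      exact h4)
    have hpar : ∀ a < n + 1, f (5 * a + 2) = 0 ∧ f (5 * a + 1) = - f (5 * a + 3) := by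
      intro a ha
      have h2 := h1 a ha
      rcases Nat.even_or_odd' a with ⟨t, ht | ht⟩
      · have h4 : f (5 * a + 1) = 0 := z4 _ (by omega)
        have h5 : f (5 * a + 3) = 0 := z4 _ (by omega)
        rw [h4, h5] at h2
        refine ⟨by linear_combination h2, ?_⟩
        rw [h4, h5, neg_zero]
      · have h4 : f (5 * a + 2) = 0 := z4 _ (by omega)
        rw [h4] at h2
        exact ⟨h4, by linear_combination h2⟩
    have hU2 : ∀ j, Uf n f 2 j = 0 := by
      intro j
      unfold Uf
      exact sum_eq_zero fun a ha => by rw [(hpar a (mem_range.mp ha)).1, zero_mul]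
    have hU1 : ∀ j, Uf n f 1 j = - Uf n f 3 j := by
      intro j
      unfold Uf
      rw [← sum_neg_distrib]
      exact sum_congr rfl fun a ha => by rw [(hpar a (mem_range.mp ha)).2, neg_mul]
    have hsgn : ∀ x y : ℕ, x % 2 = y % 2 → ((-1 : ZMod 5)) ^ x = (-1) ^ y := by
      intro x y hxy
      rcases Nat.even_or_odd' x with ⟨t, ht | ht⟩
      · rw [(show Even x from ⟨t, by omega⟩).neg_one_pow, (show Even y from ⟨y / 2, by omega⟩).neg_one_pow]
      · rw [(show Odd x from ⟨t, by omega⟩).neg_one_pow, (show Odd y from ⟨y / 2, by omega⟩).neg_one_pow]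
    have hsym : ∀ j < n + 1, Uf n f 3 (n - j) = Uf n f 3 j := by
      intro j hj
      have h2 := rel (5 * j + 2) (5 * (n - j) + 2) (by omega)
      rw [(hpar (n - j) (by omega)).1, hE j 2 (by norm_num), hE (n - j) 2 (by norm_num), hU2, hU2,
        hsgn (5 * j + 2) (5 * (n - j) + 2) (by omega)] at h2
      have h3 : (-1 : ZMod 5) ^ (5 * (n - j) + 2) * (3 * (Uf n f 3 j - Uf n f 3 (n - j))) = 0 := by
        have h4 : ((Nat.choose 3 2 : ℕ) : ZMod 5) = 3 := by norm_num [Nat.choose]
        have h5 : ((Nat.choose 1 2 : ℕ) : ZMod 5) = 0 := by norm_num [Nat.choose]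
        rw [h4, h5] at h2
        linear_combination h2
      have h4 := (mul_eq_zero.mp h3).resolve_left (pow_ne_zero _ (neg_ne_zero.mpr one_ne_zero))
      have h5 := (mul_eq_zero.mp h4).resolve_left three_ne
      linear_combination -h5
    have hkey : ∀ j < n + 1, f (5 * j + 3) = (-1) ^ j * Uf n f 3 j := by
      intro j hj
      have h2 := rel (5 * (n - j) + 3) (5 * j + 1) (by omega)
      rw [(hpar j hj).2, hE (n - j) 3 (by norm_num), hE j 1 (by norm_num), hU2, hU2, hU1, hU1,
        hsgn (5 * (n - j) + 3) (j + 1) (by omega), hsgn (5 * j + 1) (j + 1) (by omega), hsym j hj] at h2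
      have h4 : ((Nat.choose 3 3 : ℕ) : ZMod 5) = 1 := by norm_num [Nat.choose]
      have h5 : ((Nat.choose 1 3 : ℕ) : ZMod 5) = 0 := by norm_num [Nat.choose]
      have h6 : ((Nat.choose 3 1 : ℕ) : ZMod 5) = 3 := by norm_num [Nat.choose]
      have h7 : ((Nat.choose 1 1 : ℕ) : ZMod 5) = 1 := by norm_num [Nat.choose]
      rw [h4, h5, h6, h7, pow_succ] at h2
      linear_combination -h2
    have h3 : ∀ a < n + 1, f (5 * a + 3) = 0 := by
      classical
      by_contra hcon
      push Not at hcon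
      obtain ⟨a0, ha0, hg0⟩ := hcon
      obtain ⟨a, ha, hmax⟩ := exists_max_image ((range (n + 1)).filter fun a => f (5 * a + 3) ≠ 0) id
        ⟨a0, by rw [mem_filter, mem_range]; exact ⟨ha0, hg0⟩⟩
      rw [mem_filter, mem_range] at ha
      have h4 : Uf n f 3 a = f (5 * a + 3) := by
        unfold Uf
        rw [sum_eq_single a]
        · simp
        · intro b hb hne
          by_cases hgb : f (5 * b + 3) = 0
          · rw [hgb, zero_mul]
          · have h5 := hmax b (by rw [mem_filter]; exact ⟨hb, hgb⟩)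
            simp only [id] at h5
            rw [Nat.choose_eq_zero_of_lt (by omega), Nat.cast_zero, mul_zero]
        · intro h5
          exact absurd (mem_range.mpr ha.1) h5
      have h5 : a % 2 = 1 := by
        by_contra h6
        exact ha.2 (z4 _ (by omega))
      have h6 := hkey a ha.1
      rw [h4, (show Odd a from ⟨a / 2, by omega⟩).neg_one_pow] at h6
      apply ha.2
      have h7 : (2 : ZMod 5) * f (5 * a + 3) = 0 := by linear_combination h6
      exact (mul_eq_zero.mp h7).resolve_left two_ne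
    refine fin fun a ha => ⟨?_, (hpar a ha).1, h3 a ha⟩
    rw [(hpar a ha).2, h3 a ha, neg_zero]

end Pool.Agent.U691.DM
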