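import Pool.Agent.U691.DM.Dep2

/-!
# Bounded depth: assembly (helper691)
-/

set_option autoImplicit false

namespace Pool.Agent.U691.DM

open Finset Pool.Agent.H777R4.DM
open Pool.Agent.N568.BK (AR cR cR_rat cR_map)

attribute [local instance 100] LieRing.ofAssociativeRing

lemma indep_zero {R : Type} [CommRing R] (F : Finset (List ℕ)) (hF : ∀ w ∈ F, w.length = 0)
    (mu : List ℕ → R) (h : ∑ w ∈ F, mu w * cR R w [] = 0) : ∀ w ∈ F, mu w = 0 := by
  intro w hw
  have h1 : ∀ v ∈ F, v = [] := fun v hv => List.length_eq_zero_iff.mp (hF v hv)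
  have h2 := h1 w hw
  subst h2
  rw [sum_eq_single []] at h
  · have h3 : cR R ([] : List ℕ) [] = 1 := by simp [cR]
    rwa [h3, mul_one] at h
  · intro v hv hne
    exact absurd (h1 v hv) hne
  · exact fun h3 => absurd hw h3

lemma cR_one {R : Type} [CommRing R] (b t : ℕ) : cR R [b] [t] = if t = 2 * b then 1 else 0 := by
  rw [cR_cons]
  unfold AR
  simp [cR]

lemma indep_one {R : Type} [CommRing R] (F : Finset (List ℕ)) (hF : ∀ w ∈ F, w.length = 1)
    (mu : List ℕ → R) (h : ∀ e : List ℕ, e.length = 1 → ∑ w ∈ F, mu w * cR R w e = 0) :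
    ∀ w ∈ F, mu w = 0 := by
  intro w hw
  obtain ⟨b, hb⟩ := List.length_eq_one_iff.mp (hF w hw)
  have h1 := h [2 * b] rfl
  rw [sum_eq_single w] at h1
  · rwa [hb, cR_one, if_pos rfl, mul_one, ← hb] at h1
  · intro w' hw' hne
    obtain ⟨b', hb'⟩ := List.length_eq_one_iff.mp (hF w' hw')
    rw [hb', cR_one, if_neg, mul_zero]
    intro h3
    apply hne
    rw [hb, hb', show b' = b by omega]
  · exact fun h2 => absurd hw h2

lemma cR_two {R : Type} [CommRing R] (b b' k l : ℕ) : cR R [b, b'] [k, l] =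
    if 2 * b + 2 * b' = k + l then (if l = 2 * b then 1 else 0) +
      (-1) ^ k * ((2 * b).choose k : R) - (-1) ^ l * ((2 * b).choose l : R) else 0 := by
  rw [cR_cons, AR_cons, cR_one]
  have h1 : AR b (fun e' => cR R [b'] (k :: e')) [l] =
      if l = 2 * b then (if k = 2 * b' then 1 else 0) else 0 := by
    rw [← cR_one]
    rfl
  rw [h1]
  by_cases hs : 2 * b + 2 * b' = k + l
  · rw [if_pos hs, if_pos (show 2 * b ≤ k + l by omega), if_pos (show k + l - 2 * b = 2 * b' by omega),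
      mul_one]
    by_cases hl : l = 2 * b
    · rw [if_pos hl, if_pos (show k = 2 * b' by omega), if_pos hl]
      ring
    · rw [if_neg hl, if_neg hl]
      ring
  · rw [if_neg hs]
    by_cases hl : l = 2 * b
    · rw [if_pos hl, if_neg (show ¬ k = 2 * b' by omega), zero_add]
      by_cases h2 : 2 * b ≤ k + l
      · rw [if_pos h2, if_neg (show ¬ k + l - 2 * b = 2 * b' by omega), mul_zero]
      · rw [if_neg h2]
    · rw [if_neg hl, zero_add]
      by_cases h2 : 2 * b ≤ k + l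
      · rw [if_pos h2, if_neg (show ¬ k + l - 2 * b = 2 * b' by omega), mul_zero]
      · rw [if_neg h2]

theorem indep_two5 (F : Finset (List ℕ)) (hF : ∀ w ∈ F, w.length = 2 ∧
    ∀ x ∈ w, (2 * x) % 5 = 1 ∨ (2 * x) % 5 = 2 ∨ (2 * x) % 5 = 3) (mu : List ℕ → ZMod 5)
    (h : ∀ e : List ℕ, e.length = 2 → ∑ w ∈ F, mu w * cR (ZMod 5) w e = 0) : ∀ w ∈ F, mu w = 0 := by
  classical
  intro w0 hw0
  obtain ⟨b0, c0, hw0e⟩ : ∃ b c, w0 = [b, c] := List.length_eq_two.mp (hF w0 hw0).1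
  set s : ℕ := 2 * b0 + 2 * c0 with hs
  set f : ℕ → ZMod 5 := fun m => ∑ w ∈ F,
    if 2 * w.headD 0 = m ∧ 2 * w.headD 0 + 2 * w.tail.headD 0 = s then mu w else 0 with hf
  have hf1 : ∀ m, f m ≠ 0 → ∃ w ∈ F, 2 * w.headD 0 = m ∧ 2 * w.headD 0 + 2 * w.tail.headD 0 = s := by
    intro m hm
    rw [hf] at hm
    simp only at hm
    obtain ⟨w, hw, hw1⟩ := exists_ne_zero_of_sum_ne_zero hm
    refine ⟨w, hw, ?_⟩
    by_contra h1
    rw [if_neg h1] at hw1
    exact hw1 rfl
  have hT : ∀ T : ℕ → ZMod 5, ∑ m ∈ range (s + 1), f m * T m = ∑ w ∈ F,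
      if 2 * w.headD 0 + 2 * w.tail.headD 0 = s then mu w * T (2 * w.headD 0) else 0 := by
    intro T
    rw [hf]
    simp only [sum_mul]
    rw [sum_comm]
    refine sum_congr rfl fun w hw => ?_
    by_cases hw1 : 2 * w.headD 0 + 2 * w.tail.headD 0 = s
    · rw [if_pos hw1, sum_eq_single (2 * w.headD 0)]
      · rw [if_pos ⟨rfl, hw1⟩]
      · intro m _ hm
        rw [if_neg (fun h2 => hm h2.1.symm), zero_mul]
      · intro h2
        exact absurd (mem_range.mpr (by omega)) h2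
    · rw [if_neg hw1]
      refine sum_eq_zero fun m _ => ?_
      rw [if_neg (fun h2 => hw1 h2.2), zero_mul]
  have hcore := core5 s ⟨b0 + c0, by omega⟩ f (fun m hm => by
    obtain ⟨w, hw, hw1, hw2⟩ := hf1 m hm
    obtain ⟨b, c, hwe⟩ : ∃ b c, w = [b, c] := List.length_eq_two.mp (hF w hw).1
    have hb := (hF w hw).2 b (by rw [hwe]; simp)
    have hc := (hF w hw).2 c (by rw [hwe]; simp)
    rw [hwe] at hw1 hw2
    simp only [List.headD_cons, List.tail_cons] at hw1 hw2
    refine ⟨by omega, ⟨b, by omega⟩, by omega, ?_⟩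
    rw [show s - m = 2 * c by omega]
    exact hc) (fun k l hkl => by
    have h1 := h [k, l] rfl
    unfold Ef
    refine Eq.trans ?_ h1
    rw [hT, hT, hf]
    simp only
    rw [mul_sum, mul_sum, ← sum_add_distrib, ← sum_sub_distrib]
    refine sum_congr rfl fun w hw => ?_
    obtain ⟨b, c, hwe⟩ : ∃ b c, w = [b, c] := List.length_eq_two.mp (hF w hw).1
    have e1 : w.headD 0 = b := by rw [hwe]; rfl
    have e2 : w.tail.headD 0 = c := by rw [hwe]; rfl
    have e3 : cR (ZMod 5) w [k, l] = if 2 * b + 2 * c = k + l then (if l = 2 * b then 1 else 0) +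
      (-1) ^ k * ((2 * b).choose k : ZMod 5) - (-1) ^ l * ((2 * b).choose l : ZMod 5) else 0 := by
      rw [hwe, cR_two]
    rw [e1, e2, e3]
    by_cases hbc : 2 * b + 2 * c = s
    · rw [if_pos hbc, if_pos hbc, if_pos (show 2 * b + 2 * c = k + l by omega)]
      by_cases hl : l = 2 * b
      · rw [if_pos ⟨hl.symm, hbc⟩, if_pos hl]
        ring
      · rw [if_neg (fun h2 => hl h2.1.symm), if_neg hl]
        ring
    · rw [if_neg hbc, if_neg hbc, if_neg (fun h2 => hbc h2.2),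
        if_neg (show ¬ 2 * b + 2 * c = k + l by omega)]
      ring)
  have h1 := hcore (2 * b0)
  rw [hf] at h1
  simp only at h1
  rw [sum_eq_single w0] at h1
  · rw [if_pos] at h1
    · exact h1
    · rw [hw0e]
      simp only [List.headD_cons, List.tail_cons]
      exact ⟨trivial, hs.symm⟩
  · intro w hw hne
    rw [if_neg]
    intro h2
    apply hne
    obtain ⟨b, c, hwe⟩ : ∃ b c, w = [b, c] := List.length_eq_two.mp (hF w hw).1
    rw [hwe] at h2
    simp only [List.headD_cons, List.tail_cons] at h2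
    rw [hwe, hw0e, show b = b0 by omega, show c = c0 by omega]
  · exact fun h2 => absurd hw0 h2

/-- one residue class -/
theorem dep_class (p r c D : ℕ) (hpp : p.Prime) (hc : 1 ≤ c) (hD : D * c < p ^ r)
    (n : ℕ) (b : Fin n → ℕ) (hb : ∀ i, (2 * b i) % p ^ r = c) (hbinj : Function.Injective b)
    (ψ : Fin n → A) (hL : ∀ i, ψ i ∈ LieX)
    (hhom : ∀ i u, co (ψ i) u ≠ 0 → u.length = 2 * b i + 1)
    (hne : ∀ i, co (ψ i) (wordX [2 * b i]) ≠ 0) (P : Al (Fin n)) (W0 : List (Fin n))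
    (hW0 : co P W0 ≠ 0) (hWD : W0.length ≤ D) :
    ∃ v, co (PhiN ψ P) v ≠ 0 ∧ v.count 1 ≤ W0.length := by
  refine dep_main p hpp {x | (2 * x) % p ^ r = c} D ?_ n b ?_ hb hbinj ψ hL hhom hne P W0 hW0 hWD
  · intro d hd F hF mu h
    cases d with
    | zero => exact indep_zero F (fun w hw => (hF w hw).1) mu (h [] rfl)
    | succ d =>
      refine indep_class hpp hc d ?_ F hF mu (fun k e _ he => h (k :: e) (by simpa using he))
      exact lt_of_le_of_lt (Nat.mul_le_mul_right c hd) hD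
  · intro i
    have h1 := hb i
    have h2 : (2 * b i) % p ^ r ≤ 2 * b i := Nat.mod_le _ _
    omega

/-- depth two, weights `2`, `3`, `4` modulo `5` -/
theorem dep_five (n : ℕ) (b : Fin n → ℕ)
    (hb : ∀ i, (2 * b i) % 5 = 1 ∨ (2 * b i) % 5 = 2 ∨ (2 * b i) % 5 = 3) (hbinj : Function.Injective b)
    (ψ : Fin n → A) (hL : ∀ i, ψ i ∈ LieX)
    (hhom : ∀ i u, co (ψ i) u ≠ 0 → u.length = 2 * b i + 1)
    (hne : ∀ i, co (ψ i) (wordX [2 * b i]) ≠ 0) (P : Al (Fin n)) (W0 : List (Fin n))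
    (hW0 : co P W0 ≠ 0) (hWD : W0.length ≤ 2) :
    ∃ v, co (PhiN ψ P) v ≠ 0 ∧ v.count 1 ≤ W0.length := by
  refine dep_main 5 (by norm_num) {x | (2 * x) % 5 = 1 ∨ (2 * x) % 5 = 2 ∨ (2 * x) % 5 = 3} 2 ?_ n b ?_
    hb hbinj ψ hL hhom hne P W0 hW0 hWD
  · intro d hd F hF mu h
    match d, hd with
    | 0, _ => exact indep_zero F (fun w hw => (hF w hw).1) mu (h [] rfl)
    | 1, _ => exact indep_one F (fun w hw => (hF w hw).1) mu h
    | 2, _ => exact indep_two5 F hF mu h
  · intro i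
    have h1 := hb i
    omega

end Pool.Agent.U691.DM
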